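import Mathlib

/-!
The lamplighter group with lamps on the edges of the line, its generating set `{t, u}`
(`t` moves one step to the right, `u` does the same and toggles the lamp of the edge),
and its word length.
-/

set_option autoImplicit false

namespace Pool.Agent.H65R2.Lamp

/-- A finite set of lit edges (the edge `x` joins `x` and `x + 1`) and a position. -/
@[ext] structure LL where
  S : Finset ℤ
  p : ℤ
deriving DecidableEq

/-- translate -/
def sh (p : ℤ) (S : Finset ℤ) : Finset ℤ := S.map (Equiv.addRight p).toEmbedding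

@[simp] theorem mem_sh (p : ℤ) (S : Finset ℤ) (x : ℤ) : x ∈ sh p S ↔ x - p ∈ S := by
  simp only [sh, Finset.mem_map_equiv]
  simp [sub_eq_add_neg]

instance : Mul LL := ⟨fun g h => ⟨symmDiff g.S (sh g.p h.S), g.p + h.p⟩⟩
instance : One LL := ⟨⟨∅, 0⟩⟩
instance : Inv LL := ⟨fun g => ⟨sh (-g.p) g.S, -g.p⟩⟩

theorem mul_def (g h : LL) : g * h = ⟨symmDiff g.S (sh g.p h.S), g.p + h.p⟩ := rfl
theorem one_def : (1 : LL) = ⟨∅, 0⟩ := rfl
theorem inv_def (g : LL) : g⁻¹ = ⟨sh (-g.p) g.S, -g.p⟩ := rfl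

instance : Group LL :=
  Group.ofLeftAxioms
    (by
      intro a b c
      simp only [mul_def]
      ext x
      · simp only [Finset.mem_symmDiff, mem_sh]
        have : x - (a.p + b.p) = x - a.p - b.p := by ring
        rw [this]
        tauto
      · simp only [add_assoc])
    (by
      intro a
      simp only [mul_def, one_def]
      ext x
      · simp [Finset.mem_symmDiff]
      · simp)
    (by
      intro a
      simp only [mul_def, one_def, inv_def]
      ext x
      · simp [Finset.mem_symmDiff]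
      · simp)

/-- How far to the left one has to go. -/
def I (g : LL) : ℕ := (g.S.sup (fun x => (-x).toNat)) ⊔ (-g.p).toNat
/-- How far to the right one has to go. -/
def J (g : LL) : ℕ := (g.S.sup (fun x => (x + 1).toNat)) ⊔ (g.p).toNat

theorem I_le_iff (g : LL) (n : ℕ) : I g ≤ n ↔ (∀ x ∈ g.S, -x ≤ (n : ℤ)) ∧ -g.p ≤ (n : ℤ) := by
  simp only [I, sup_le_iff, Finset.sup_le_iff, Int.toNat_le]

theorem J_le_iff (g : LL) (n : ℕ) : J g ≤ n ↔ (∀ x ∈ g.S, x + 1 ≤ (n : ℤ)) ∧ g.p ≤ (n : ℤ) := by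
  simp only [J, sup_le_iff, Finset.sup_le_iff, Int.toNat_le]

theorem I_bd (g : LL) : (∀ x ∈ g.S, -x ≤ (I g : ℤ)) ∧ -g.p ≤ (I g : ℤ) :=
  (I_le_iff g (I g)).1 le_rfl

theorem J_bd (g : LL) : (∀ x ∈ g.S, x + 1 ≤ (J g : ℤ)) ∧ g.p ≤ (J g : ℤ) :=
  (J_le_iff g (J g)).1 le_rfl

/-- The length. -/
def len (g : LL) : ℤ := 2 * ((I g : ℤ) + J g) - |g.p|

/-- moves to the right -/
def IsR (s : LL) : Prop := s.p = 1 ∧ ∀ x ∈ s.S, x = 0
/-- moves to the left -/
def IsL (s : LL) : Prop := s.p = -1 ∧ ∀ x ∈ s.S, x = -1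

theorem isL_inv {s : LL} (h : IsR s) : IsL s⁻¹ := by
  refine ⟨by simp [inv_def, h.1], fun x hx => ?_⟩
  simp only [inv_def, mem_sh, h.1] at hx
  have := h.2 _ hx
  omega

theorem isR_inv {s : LL} (h : IsL s) : IsR s⁻¹ := by
  refine ⟨by simp [inv_def, h.1], fun x hx => ?_⟩
  simp only [inv_def, mem_sh, h.1] at hx
  have := h.2 _ hx
  omega

theorem memR {g s : LL} (h : IsR s) {x : ℤ} (hx : x ∈ (g * s).S) : x ∈ g.S ∨ x = g.p := by
  simp only [mul_def, Finset.mem_symmDiff, mem_sh] at hx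
  rcases hx with hx | hx
  · exact Or.inl hx.1
  · right
    have := h.2 _ hx.1
    omega

theorem memR' {g s : LL} (h : IsR s) {x : ℤ} (hx : x ∈ g.S) : x ∈ (g * s).S ∨ x = g.p := by
  simp only [mul_def, Finset.mem_symmDiff, mem_sh]
  by_cases hs : x - g.p ∈ s.S
  · right
    have := h.2 _ hs
    omega
  · exact Or.inl (Or.inl ⟨hx, hs⟩)

theorem memL {g s : LL} (h : IsL s) {x : ℤ} (hx : x ∈ (g * s).S) : x ∈ g.S ∨ x = g.p - 1 := by
  simp only [mul_def, Finset.mem_symmDiff, mem_sh] at hx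
  rcases hx with hx | hx
  · exact Or.inl hx.1
  · right
    have := h.2 _ hx.1
    omega

theorem memL' {g s : LL} (h : IsL s) {x : ℤ} (hx : x ∈ g.S) : x ∈ (g * s).S ∨ x = g.p - 1 := by
  simp only [mul_def, Finset.mem_symmDiff, mem_sh]
  by_cases hs : x - g.p ∈ s.S
  · right
    have := h.2 _ hs
    omega
  · exact Or.inl (Or.inl ⟨hx, hs⟩)

theorem pR {g s : LL} (h : IsR s) : (g * s).p = g.p + 1 := by simp [mul_def, h.1]
theorem pL {g s : LL} (h : IsL s) : (g * s).p = g.p - 1 := by simp [mul_def, h.1]; ring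

theorem R_J_le {g s : LL} (h : IsR s) (n : ℕ) (hn : J g ≤ n) (hp : g.p + 1 ≤ n) :
    J (g * s) ≤ n := by
  rw [J_le_iff] at hn ⊢
  rw [pR h]
  refine ⟨fun x hx => ?_, hp⟩
  rcases memR h hx with hx | hx
  · exact hn.1 x hx
  · omega

theorem R_J_ge {g s : LL} (h : IsR s) : J g ≤ J (g * s) := by
  rw [J_le_iff]
  have h1 := J_bd (g * s)
  rw [pR h] at h1
  refine ⟨fun x hx => ?_, by omega⟩
  rcases memR' h hx with hx | hx
  · exact h1.1 x hx
  · omega

theorem R_I_le {g s : LL} (h : IsR s) : I (g * s) ≤ I g := by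
  rw [I_le_iff]
  have h1 := I_bd g
  rw [pR h]
  refine ⟨fun x hx => ?_, by omega⟩
  rcases memR h hx with hx | hx
  · exact h1.1 x hx
  · omega

theorem R_I_ge {g s : LL} (h : IsR s) (hp : 0 ≤ g.p) : I g ≤ I (g * s) := by
  rw [I_le_iff]
  have h1 := I_bd (g * s)
  refine ⟨fun x hx => ?_, by omega⟩
  rcases memR' h hx with hx | hx
  · exact h1.1 x hx
  · omega

theorem L_I_le {g s : LL} (h : IsL s) (n : ℕ) (hn : I g ≤ n) (hp : -(g.p - 1) ≤ n) :
    I (g * s) ≤ n := by
  rw [I_le_iff] at hn ⊢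
  rw [pL h]
  refine ⟨fun x hx => ?_, hp⟩
  rcases memL h hx with hx | hx
  · exact hn.1 x hx
  · omega

theorem L_J_le {g s : LL} (h : IsL s) : J (g * s) ≤ J g := by
  rw [J_le_iff]
  have h1 := J_bd g
  rw [pL h]
  refine ⟨fun x hx => ?_, by omega⟩
  rcases memL h hx with hx | hx
  · exact h1.1 x hx
  · omega

theorem L_J_ge {g s : LL} (h : IsL s) (hp : g.p < J g) : J g ≤ J (g * s) := by
  -- the maximum is attained at an edge
  by_contra hcon
  push_neg at hcon
  obtain ⟨n, hn⟩ : ∃ n, J g = n + 1 := ⟨J g - 1, by omega⟩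
  have h1 : J (g * s) ≤ n := by omega
  have h2 : ¬ J g ≤ n := by omega
  apply h2
  rw [J_le_iff] at h1 ⊢
  refine ⟨fun x hx => ?_, by omega⟩
  rcases memL' h hx with hx | hx
  · exact h1.1 x hx
  · omega

theorem L_I_ge {g s : LL} (h : IsL s) : I g ≤ I (g * s) := by
  rw [I_le_iff]
  have h1 := I_bd (g * s)
  rw [pL h] at h1
  refine ⟨fun x hx => ?_, by omega⟩
  rcases memL' h hx with hx | hx
  · exact h1.1 x hx
  · omega

theorem len_one : len 1 = 0 := by
  simp [len, I, J, one_def]

/-- one letter changes the length by at most one -/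
theorem len_mul_le {g s : LL} (h : IsR s ∨ IsL s) : len (g * s) ≤ len g + 1 := by
  have hJ := J_bd g
  have hI := I_bd g
  rcases h with h | h
  · unfold len
    rw [pR h]
    have h1 := R_I_le (g := g) h
    rcases le_or_gt 0 g.p with hp | hp
    · have h2 := R_J_le (g := g) h (J g + 1) (by omega) (by push_cast; omega)
      rw [abs_of_nonneg hp, abs_of_nonneg (by omega)]
      omega
    · have h2 := R_J_le (g := g) h (J g) le_rfl (by omega)
      rw [abs_of_neg hp, abs_of_nonpos (by omega)]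
      omega
  · unfold len
    rw [pL h]
    have h1 := L_J_le (g := g) h
    rcases le_or_gt g.p 0 with hp | hp
    · have h2 := L_I_le (g := g) h (I g + 1) (by omega) (by push_cast; omega)
      rw [abs_of_nonpos hp, abs_of_nonpos (by omega)]
      omega
    · have h2 := L_I_le (g := g) h (I g) le_rfl (by omega)
      rw [abs_of_pos hp, abs_of_nonneg (by omega)]
      omega

/-- the generators -/
def tt : LL := ⟨∅, 1⟩
def uu : LL := ⟨{0}, 1⟩

theorem isR_tt : IsR tt := ⟨rfl, by simp [tt]⟩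
theorem isR_uu : IsR uu := ⟨rfl, by simp [uu]⟩

/-- a shorter neighbour -/
theorem descent {g : LL} (hg : g ≠ 1) :
    ∃ s : LL, (s = tt ∨ s = uu ∨ s = tt⁻¹ ∨ s = uu⁻¹) ∧ len (g * s) = len g - 1 := by
  have hJ := J_bd g
  have hI := I_bd g
  suffices h : ∃ s : LL, (s = tt ∨ s = uu ∨ s = tt⁻¹ ∨ s = uu⁻¹) ∧ len (g * s) ≤ len g - 1 by
    obtain ⟨s, hs, h1⟩ := h
    refine ⟨s, hs, ?_⟩
    have h2 : IsR s⁻¹ ∨ IsL s⁻¹ := by
      rcases hs with rfl | rfl | rfl | rfl
      · exact Or.inr (isL_inv isR_tt)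
      · exact Or.inr (isL_inv isR_uu)
      · exact Or.inl (by simpa using isR_tt)
      · exact Or.inl (by simpa using isR_uu)
    have h3 := len_mul_le (g := g * s) h2
    rw [mul_inv_cancel_right] at h3
    omega
  rcases lt_trichotomy g.p 0 with hp | hp | hp
  · -- p < 0
    by_cases hI2 : -g.p < I g
    · -- move left
      refine ⟨tt⁻¹, by simp, ?_⟩
      have hL := isL_inv isR_tt
      have h1 := L_J_le (g := g) hL
      have h2 := L_I_le (g := g) hL (I g) le_rfl (by omega)
      unfold len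
      rw [pL hL, abs_of_neg hp, abs_of_neg (by omega)]
      omega
    · -- move right and switch off the edge p
      obtain ⟨s, hs, hR, hoff⟩ : ∃ s, (s = tt ∨ s = uu ∨ s = tt⁻¹ ∨ s = uu⁻¹) ∧ IsR s ∧
          g.p ∉ (g * s).S := by
        by_cases hm : g.p ∈ g.S
        · refine ⟨uu, by simp, isR_uu, ?_⟩
          simp [mul_def, uu, Finset.mem_symmDiff, hm]
        · refine ⟨tt, by simp, isR_tt, ?_⟩
          simp [mul_def, tt, Finset.mem_symmDiff, hm]
      refine ⟨s, hs, ?_⟩
      have h1 := R_J_le (g := g) hR (J g) le_rfl (by omega)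
      obtain ⟨n, hn⟩ : ∃ n, I g = n + 1 := ⟨I g - 1, by omega⟩
      have h2 : I (g * s) ≤ n := by
        rw [I_le_iff, pR hR]
        refine ⟨fun x hx => ?_, by omega⟩
        have h3 : x ≠ g.p := fun h => hoff (h ▸ hx)
        rcases memR hR hx with hx | hx
        · have := hI.1 x hx
          omega
        · exact absurd hx h3
      unfold len
      rw [pR hR, abs_of_neg hp, abs_of_nonpos (by omega)]
      omega
  · -- p = 0
    by_cases hJ2 : 0 < J g
    · refine ⟨tt, by simp, ?_⟩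
      have h1 := R_I_le (g := g) isR_tt
      have h2 := R_J_le (g := g) isR_tt (J g) le_rfl (by omega)
      unfold len
      rw [pR isR_tt, hp]
      simp
      omega
    · by_cases hI2 : 0 < I g
      · refine ⟨tt⁻¹, by simp, ?_⟩
        have hL := isL_inv isR_tt
        have h1 := L_J_le (g := g) hL
        have h2 := L_I_le (g := g) hL (I g) le_rfl (by omega)
        unfold len
        rw [pL hL, hp]
        simp
        omega
      · exfalso
        apply hg
        ext x
        · simp only [one_def, Finset.notMem_empty, iff_false]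
          intro hx
          have h1 := hJ.1 x hx
          have h2 := hI.1 x hx
          omega
        · simp [one_def, hp]
  · -- 0 < p
    by_cases hJ2 : g.p < J g
    · refine ⟨tt, by simp, ?_⟩
      have h1 := R_I_le (g := g) isR_tt
      have h2 := R_J_le (g := g) isR_tt (J g) le_rfl (by omega)
      unfold len
      rw [pR isR_tt, abs_of_pos hp, abs_of_pos (by omega)]
      omega
    · obtain ⟨s, hs, hL, hoff⟩ : ∃ s, (s = tt ∨ s = uu ∨ s = tt⁻¹ ∨ s = uu⁻¹) ∧ IsL s ∧
          g.p - 1 ∉ (g * s).S := by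
        by_cases hm : g.p - 1 ∈ g.S
        · refine ⟨uu⁻¹, by simp, isL_inv isR_uu, ?_⟩
          simp [mul_def, inv_def, uu, Finset.mem_symmDiff, hm]
        · refine ⟨tt⁻¹, by simp, isL_inv isR_tt, ?_⟩
          simp [mul_def, inv_def, tt, Finset.mem_symmDiff, hm]
      refine ⟨s, hs, ?_⟩
      have h1 := L_I_le (g := g) hL (I g) le_rfl (by omega)
      obtain ⟨n, hn⟩ : ∃ n, J g = n + 1 := ⟨J g - 1, by omega⟩
      have h2 : J (g * s) ≤ n := by
        rw [J_le_iff, pL hL]
        refine ⟨fun x hx => ?_, by omega⟩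
        have h3 : x ≠ g.p - 1 := fun h => hoff (h ▸ hx)
        rcases memL hL hx with hx | hx
        · have := hJ.1 x hx
          omega
        · exact absurd hx h3
      unfold len
      rw [pL hL, abs_of_pos hp, abs_of_nonneg (by omega)]
      omega

theorem len_nonneg (g : LL) : 0 ≤ len g := by
  have hJ := J_bd g
  have hI := I_bd g
  unfold len
  rcases le_or_gt 0 g.p with hp | hp
  · rw [abs_of_nonneg hp]; omega
  · rw [abs_of_neg hp]; omega

theorem len_eq_zero {g : LL} (h : len g = 0) : g = 1 := by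
  by_contra hg
  obtain ⟨s, -, hs⟩ := descent hg
  have := len_nonneg (g * s)
  omega

end Pool.Agent.H65R2.Lamp
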