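import Mathlib
import Pool.Agent.H65R2.LampGeo

/-!
Rationality of the growth series of the lamplighter group with generators `t, u`.
-/

set_option autoImplicit false

namespace Pool.Agent.H65R2.Lamp

open PowerSeries

/-- pairs with sum `n` -/
def adg (n : ℕ) : Finset (ℕ × ℕ) := Finset.HasAntidiagonal.antidiagonal n

@[simp] theorem mem_adg {n : ℕ} {q : ℕ × ℕ} : q ∈ adg n ↔ q.1 + q.2 = n :=
  Finset.HasAntidiagonal.mem_antidiagonal

/-- the counting series of a weight function -/
noncomputable def gf {α : Type} (w : α → ℕ) : PowerSeries ℚ :=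
  PowerSeries.mk (fun n => ((Nat.card {x : α // w x = n} : ℕ) : ℚ))

theorem gf_prod {α β : Type} (w : α → ℕ) (v : β → ℕ)
    (hw : ∀ n, Finite {x : α // w x = n}) (hv : ∀ n, Finite {x : β // v x = n}) :
    gf (fun x : α × β => w x.1 + v x.2) = gf w * gf v := by
  classical
  ext n
  rw [PowerSeries.coeff_mul]
  simp only [gf, PowerSeries.coeff_mk]
  have e : {x : α × β // w x.1 + v x.2 = n} ≃
      Σ ij : {q : ℕ × ℕ // q ∈ adg n}, {x : α // w x = ij.1.1} × {x : β // v x = ij.1.2} :=
    { toFun := fun x => ⟨⟨(w x.1.1, v x.1.2), by simpa using x.2⟩, ⟨x.1.1, rfl⟩, ⟨x.1.2, rfl⟩⟩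
      invFun := fun y => ⟨(y.2.1.1, y.2.2.1), by
        have h1 := y.2.1.2
        have h2 := y.2.2.2
        have h3 := y.1.2
        simp only [mem_adg] at h3
        show w y.2.1.1 + v y.2.2.1 = n
        rw [h1, h2, h3]⟩
      left_inv := fun x => rfl
      right_inv := by
        rintro ⟨⟨⟨i, j⟩, hij⟩, ⟨x, hx⟩, ⟨y, hy⟩⟩
        simp only at hx hy
        subst hx
        subst hy
        rfl }
  rw [Nat.card_congr e]
  haveI : ∀ ij : {q : ℕ × ℕ // q ∈ adg n},
      Finite ({x : α // w x = ij.1.1} × {x : β // v x = ij.1.2}) := fun ij => by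
    haveI := hw ij.1.1
    haveI := hv ij.1.2
    infer_instance
  rw [Nat.card_sigma]
  simp only [Nat.card_prod]
  push_cast
  rw [Finset.univ_eq_attach]
  exact Finset.sum_attach (adg n)
    (fun q : ℕ × ℕ => (Nat.card {x : α // w x = q.1} : ℚ) * (Nat.card {x : β // v x = q.2} : ℚ))

theorem gf_congr {α β : Type} (e : α ≃ β) (w : α → ℕ) (v : β → ℕ) (h : ∀ x, v (e x) = w x) :
    gf w = gf v := by
  ext n
  simp only [gf, PowerSeries.coeff_mk]
  congr 1
  apply Nat.card_congr
  exact e.subtypeEquiv (fun x => by rw [h])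

/-- weight of a finite set of naturals: twice the number of edges to be crossed -/
def w1 (X : Finset ℕ) : ℕ := 2 * X.sup (fun k => k + 1)

theorem sup_le (X : Finset ℕ) (n : ℕ) : X.sup (fun k => k + 1) ≤ n ↔ X ⊆ Finset.range n := by
  rw [Finset.sup_le_iff]
  simp only [Finset.subset_iff, Finset.mem_range]
  exact ⟨fun h x hx => h x hx, fun h x hx => h hx⟩

theorem w1_fin (n : ℕ) : Finite {X : Finset ℕ // w1 X = n} := by
  apply Set.Finite.subset ((Finset.range n).powerset.finite_toSet)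
  intro X hX
  have hX' : w1 X = n := hX
  rw [SetLike.mem_coe, Finset.mem_powerset, ← sup_le]
  unfold w1 at hX'
  omega

theorem w1_odd (k : ℕ) : Nat.card {X : Finset ℕ // w1 X = 2 * k + 1} = 0 := by
  rw [Nat.card_eq_zero]
  left
  constructor
  rintro ⟨X, hX⟩
  unfold w1 at hX
  omega

theorem w1_zero : Nat.card {X : Finset ℕ // w1 X = 0} = 1 := by
  rw [Nat.card_eq_one_iff_unique]
  refine ⟨⟨?_⟩, ⟨⟨∅, by simp [w1]⟩⟩⟩
  rintro ⟨X, hX⟩ ⟨Y, hY⟩
  have h : ∀ Z : Finset ℕ, w1 Z = 0 → Z = ∅ := by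
    intro Z hZ
    have : Z.sup (fun k => k + 1) ≤ 0 := by unfold w1 at hZ; omega
    rw [sup_le] at this
    simpa using this
  simp [h X hX, h Y hY]

theorem w1_even (k : ℕ) : Nat.card {X : Finset ℕ // w1 X = 2 * k + 2} = 2 ^ k := by
  classical
  have h : ∀ X : Finset ℕ, X ∈ ((Finset.range (k + 1)).powerset \ (Finset.range k).powerset) ↔
      w1 X = 2 * k + 2 := by
    intro X
    rw [Finset.mem_sdiff, Finset.mem_powerset, Finset.mem_powerset, ← sup_le, ← sup_le]
    unfold w1
    omega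
  rw [Nat.subtype_card _ h, Finset.card_sdiff_of_subset, Finset.card_powerset,
    Finset.card_powerset, Finset.card_range, Finset.card_range, pow_succ]
  · omega
  · exact Finset.powerset_mono.2 (Finset.range_subset_range.2 (by omega))

theorem gf_w1 : (1 - 2 * X ^ 2 : PowerSeries ℚ) * gf w1 = 1 - X ^ 2 := by
  ext n
  have h2 : (2 : PowerSeries ℚ) = C (2 : ℚ) := (map_ofNat C 2).symm
  rw [sub_mul, one_mul, map_sub, h2, mul_assoc, PowerSeries.coeff_C_mul]
  match n with
  | 0 => simp [gf, w1_zero]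
  | 1 =>
    have h := w1_odd 0
    simp only [mul_zero, zero_add] at h
    simp [gf, h, PowerSeries.coeff_X_pow_mul', PowerSeries.coeff_X_pow, PowerSeries.coeff_one]
  | n + 2 =>
    rw [PowerSeries.coeff_X_pow_mul, map_sub, PowerSeries.coeff_one, PowerSeries.coeff_X_pow]
    simp only [gf, PowerSeries.coeff_mk]
    rcases Nat.even_or_odd' n with ⟨k, hk | hk⟩
    · subst hk
      rw [w1_even]
      rcases k with _ | k
      · simp [w1_zero]
        norm_num
      · rw [show 2 * (k + 1) = 2 * k + 2 by ring, w1_even]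
        simp [pow_succ]
        ring
    · subst hk
      rw [w1_odd, show 2 * k + 1 + 2 = 2 * (k + 1) + 1 by ring, w1_odd]
      simp

/-- middle part: a position `p` and a set of edges between `0` and `p` -/
def D2 : Type := {q : ℤ × Finset ℕ // q.2 ⊆ Finset.range q.1.natAbs}

def w2 (q : D2) : ℕ := q.1.1.natAbs

def e2 (n : ℕ) : {q : D2 // w2 q = n} ≃
    {p : ℤ // p.natAbs = n} × {X : Finset ℕ // X ∈ (Finset.range n).powerset} where
  toFun q := ⟨⟨q.1.1.1, q.2⟩, ⟨q.1.1.2, by
    have h := q.1.2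
    have h2 := q.2
    unfold w2 at h2
    rw [h2] at h
    simpa using h⟩⟩
  invFun q := ⟨⟨(q.1.1, q.2.1), by
    have h := q.2.2
    rw [Finset.mem_powerset] at h
    simpa [q.1.2] using h⟩, q.1.2⟩
  left_inv _ := rfl
  right_inv _ := rfl

theorem w2_fin (n : ℕ) : Finite {q : D2 // w2 q = n} := by
  have : Finite {p : ℤ // p.natAbs = n} := by
    apply Set.Finite.subset (Set.finite_Icc (-(n : ℤ)) n)
    intro p hp
    have hp' : p.natAbs = n := hp
    rw [Set.mem_Icc]
    omega
  exact Finite.of_equiv _ (e2 n).symm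

theorem w2_card (n : ℕ) : Nat.card {q : D2 // w2 q = n} = if n = 0 then 1 else 2 * 2 ^ n := by
  classical
  rw [Nat.card_congr (e2 n), Nat.card_prod]
  have h1 : Nat.card {X : Finset ℕ // X ∈ (Finset.range n).powerset} = 2 ^ n := by
    rw [Nat.subtype_card (Finset.range n).powerset (fun x => Iff.rfl), Finset.card_powerset,
      Finset.card_range]
  have h2 : Nat.card {p : ℤ // p.natAbs = n} = if n = 0 then 1 else 2 := by
    have h : ∀ p : ℤ, p ∈ ({(n : ℤ), -(n : ℤ)} : Finset ℤ) ↔ p.natAbs = n := by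
      intro p
      simp only [Finset.mem_insert, Finset.mem_singleton]
      omega
    rw [Nat.subtype_card _ h]
    split_ifs with h0
    · subst h0; simp
    · rw [Finset.card_pair]
      omega
  rw [h1, h2]
  split_ifs with h0
  · subst h0; simp
  · rfl

theorem gf_w2 : (1 - 2 * X : PowerSeries ℚ) * gf w2 = 1 + 2 * X := by
  ext n
  have h2 : (2 : PowerSeries ℚ) = C (2 : ℚ) := (map_ofNat C 2).symm
  rw [sub_mul, one_mul, map_sub, map_add, h2, mul_assoc, PowerSeries.coeff_C_mul,
    PowerSeries.coeff_C_mul]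
  match n with
  | 0 => simp [gf, w2_card]
  | n + 1 =>
    rw [PowerSeries.coeff_succ_X_mul, PowerSeries.coeff_one, PowerSeries.coeff_X]
    simp only [gf, PowerSeries.coeff_mk, w2_card]
    rcases n with _ | n
    · norm_num
    · simp [pow_succ]
      ring

/-- length as a natural number -/
def lenN (g : LL) : ℕ := (len g).toNat

theorem lenN_cast (g : LL) : (lenN g : ℤ) = len g := Int.toNat_of_nonneg (len_nonneg g)

theorem injL (m : ℤ) : Function.Injective (fun k : ℕ => m - 1 - (k : ℤ)) := by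
  intro a b h
  have h' : m - 1 - (a : ℤ) = m - 1 - (b : ℤ) := h
  omega

theorem injR (m : ℤ) : Function.Injective (fun k : ℕ => m + (k : ℤ)) := by
  intro a b h
  have h' : m + (a : ℤ) = m + (b : ℤ) := h
  omega

/-- the pieces of an element -/
noncomputable def pieces (g : LL) : (Finset ℕ × Finset ℕ) × D2 :=
  ((g.S.preimage (fun k : ℕ => min 0 g.p - 1 - (k : ℤ)) (injL (min 0 g.p)).injOn,
    g.S.preimage (fun k : ℕ => max 0 g.p + (k : ℤ)) (injR (max 0 g.p)).injOn),
   ⟨(g.p, (Finset.range g.p.natAbs).filter (fun k => min 0 g.p + (k : ℤ) ∈ g.S)),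
      Finset.filter_subset _ _⟩)

theorem pieces_inj : Function.Injective pieces := by
  intro g h hgh
  have h1 : g.S.preimage (fun k : ℕ => min 0 g.p - 1 - (k : ℤ)) (injL (min 0 g.p)).injOn =
    h.S.preimage (fun k : ℕ => min 0 h.p - 1 - (k : ℤ)) (injL (min 0 h.p)).injOn :=
    congrArg (fun q => q.1.1) hgh
  have h2 : g.S.preimage (fun k : ℕ => max 0 g.p + (k : ℤ)) (injR (max 0 g.p)).injOn =
    h.S.preimage (fun k : ℕ => max 0 h.p + (k : ℤ)) (injR (max 0 h.p)).injOn :=
    congrArg (fun q => q.1.2) hgh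
  have h3 : g.p = h.p := congrArg (fun q => q.2.1.1) hgh
  have h4 : (Finset.range g.p.natAbs).filter (fun k : ℕ => min 0 g.p + (k : ℤ) ∈ g.S) =
    (Finset.range h.p.natAbs).filter (fun k : ℕ => min 0 h.p + (k : ℤ) ∈ h.S) :=
    congrArg (fun q => q.2.1.2) hgh
  ext x
  · rw [Finset.ext_iff] at h1 h2 h4
    simp only [Finset.mem_preimage, Finset.mem_filter, Finset.mem_range] at h1 h2 h4
    rw [← h3] at h1 h2 h4
    rcases lt_or_ge x (min 0 g.p) with hx | hx
    · have := h1 (min 0 g.p - 1 - x).toNat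
      rw [Int.toNat_of_nonneg (by omega)] at this
      rw [show min 0 g.p - 1 - (min 0 g.p - 1 - x) = x by ring] at this
      exact this
    · rcases lt_or_ge x (max 0 g.p) with hx2 | hx2
      · have := h4 (x - min 0 g.p).toNat
        rw [Int.toNat_of_nonneg (by omega)] at this
        rw [show min 0 g.p + (x - min 0 g.p) = x by ring] at this
        have hlt : (x - min 0 g.p).toNat < g.p.natAbs := by omega
        simpa [hlt] using this
      · have := h2 (x - max 0 g.p).toNat
        rw [Int.toNat_of_nonneg (by omega)] at this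
        rw [show max 0 g.p + (x - max 0 g.p) = x by ring] at this
        exact this
  · exact h3

theorem pieces_surj : Function.Surjective pieces := by
  rintro ⟨⟨A, B⟩, ⟨⟨p, C⟩, hC⟩⟩
  simp only at hC
  refine ⟨⟨A.image (fun k : ℕ => min 0 p - 1 - (k : ℤ)) ∪ B.image (fun k : ℕ => max 0 p + (k : ℤ)) ∪
    C.image (fun k : ℕ => min 0 p + (k : ℤ)), p⟩, ?_⟩
  have hC' : ∀ k ∈ C, k < p.natAbs := fun k hk => by simpa using hC hk
  refine Prod.ext (Prod.ext ?_ ?_) (Subtype.ext (Prod.ext rfl ?_))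
  · ext k
    simp only [pieces, Finset.mem_preimage, Finset.mem_union, Finset.mem_image]
    constructor
    · rintro ((⟨a, ha, h⟩ | ⟨a, ha, h⟩) | ⟨a, ha, h⟩)
      · have : a = k := by omega
        exact this ▸ ha
      · omega
      · omega
    · intro hk
      exact Or.inl (Or.inl ⟨k, hk, rfl⟩)
  · ext k
    simp only [pieces, Finset.mem_preimage, Finset.mem_union, Finset.mem_image]
    constructor
    · rintro ((⟨a, ha, h⟩ | ⟨a, ha, h⟩) | ⟨a, ha, h⟩)
      · omega
      · have : a = k := by omega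
        exact this ▸ ha
      · have := hC' a ha
        omega
    · intro hk
      exact Or.inl (Or.inr ⟨k, hk, rfl⟩)
  · ext k
    simp only [pieces, Finset.mem_filter, Finset.mem_range, Finset.mem_union, Finset.mem_image]
    constructor
    · rintro ⟨hk, ((⟨a, ha, h⟩ | ⟨a, ha, h⟩) | ⟨a, ha, h⟩)⟩
      · omega
      · omega
      · have : a = k := by omega
        exact this ▸ ha
    · intro hk
      exact ⟨hC' k hk, Or.inr ⟨k, hk, rfl⟩⟩

theorem pieces_len (g : LL) :
    lenN g = (w1 (pieces g).1.1 + w1 (pieces g).1.2) + w2 (pieces g).2 := by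
  have key1 : ∀ n : ℕ, (pieces g).1.1.sup (fun k => k + 1) ≤ n ↔
      (I g : ℤ) ≤ (-g.p) ⊔ 0 + n := by
    intro n
    have hI : (I g : ℤ) ≤ (-g.p) ⊔ 0 + n ↔ I g ≤ ((-g.p) ⊔ 0 + n).toNat := by omega
    rw [hI, I_le_iff, Finset.sup_le_iff, Int.toNat_of_nonneg (by omega)]
    simp only [pieces, Finset.mem_preimage]
    constructor
    · intro h
      refine ⟨fun x hx => ?_, by omega⟩
      by_cases hx2 : x < min 0 g.p
      · have := h (min 0 g.p - 1 - x).toNat (by
          rw [Int.toNat_of_nonneg (by omega)]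
          rw [show min 0 g.p - 1 - (min 0 g.p - 1 - x) = x by ring]
          exact hx)
        omega
      · omega
    · rintro ⟨h, -⟩ k hk
      have := h _ hk
      omega
  have key2 : ∀ n : ℕ, (pieces g).1.2.sup (fun k => k + 1) ≤ n ↔
      (J g : ℤ) ≤ g.p ⊔ 0 + n := by
    intro n
    have hJ : (J g : ℤ) ≤ g.p ⊔ 0 + n ↔ J g ≤ (g.p ⊔ 0 + n).toNat := by omega
    rw [hJ, J_le_iff, Finset.sup_le_iff, Int.toNat_of_nonneg (by omega)]
    simp only [pieces, Finset.mem_preimage]
    constructor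
    · intro h
      refine ⟨fun x hx => ?_, by omega⟩
      by_cases hx2 : max 0 g.p ≤ x
      · have := h (x - max 0 g.p).toNat (by
          rw [Int.toNat_of_nonneg (by omega)]
          rw [show max 0 g.p + (x - max 0 g.p) = x by ring]
          exact hx)
        omega
      · omega
    · rintro ⟨h, -⟩ k hk
      have := h _ hk
      omega
  have hI := I_bd g
  have hJ := J_bd g
  have e1 : (((pieces g).1.1.sup (fun k => k + 1) : ℕ) : ℤ) = I g - ((-g.p) ⊔ 0) := by
    have h1 := (key1 ((pieces g).1.1.sup (fun k => k + 1))).1 le_rfl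
    have h2 := (key1 (I g - ((-g.p) ⊔ 0)).toNat).2 (by omega)
    omega
  have e2 : (((pieces g).1.2.sup (fun k => k + 1) : ℕ) : ℤ) = J g - (g.p ⊔ 0) := by
    have h1 := (key2 ((pieces g).1.2.sup (fun k => k + 1))).1 le_rfl
    have h2 := (key2 (J g - (g.p ⊔ 0)).toNat).2 (by omega)
    omega
  have e3 : ((w2 (pieces g).2 : ℕ) : ℤ) = |g.p| := by
    simp [w2, pieces]
  have e4 := lenN_cast g
  unfold len at e4
  unfold w1
  zify
  rw [e4, e1, e2, e3]
  rcases le_or_gt 0 g.p with hp | hp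
  · rw [abs_of_nonneg hp]; omega
  · rw [abs_of_neg hp]; omega

theorem growth :
    ((1 - 2 * X ^ 2) ^ 2 * (1 - 2 * X) : PowerSeries ℚ) * gf lenN =
      (1 - X ^ 2) ^ 2 * (1 + 2 * X) := by
  have h1 : gf lenN = (gf w1 * gf w1) * gf w2 := by
    rw [← gf_prod w1 w1 w1_fin w1_fin, ← gf_prod]
    · exact gf_congr (Equiv.ofBijective pieces ⟨pieces_inj, pieces_surj⟩) _ _
        (fun x => (pieces_len x).symm)
    · intro n
      have : Finite (Σ ij : {q : ℕ × ℕ // q ∈ adg n},
          {x : Finset ℕ // w1 x = ij.1.1} × {x : Finset ℕ // w1 x = ij.1.2}) := by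
        haveI : ∀ ij : {q : ℕ × ℕ // q ∈ adg n},
            Finite ({x : Finset ℕ // w1 x = ij.1.1} × {x : Finset ℕ // w1 x = ij.1.2}) :=
          fun ij => by
            haveI := w1_fin ij.1.1
            haveI := w1_fin ij.1.2
            infer_instance
        infer_instance
      refine Finite.of_injective (β := Σ ij : {q : ℕ × ℕ // q ∈ adg n},
          {x : Finset ℕ // w1 x = ij.1.1} × {x : Finset ℕ // w1 x = ij.1.2})
        (fun x => ⟨⟨(w1 x.1.1, w1 x.1.2), by simpa using x.2⟩, ⟨x.1.1, rfl⟩, ⟨x.1.2, rfl⟩⟩) ?_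
      rintro ⟨⟨x, y⟩, h⟩ ⟨⟨x', y'⟩, h'⟩ hh
      have a1 : x = x' := congrArg (fun z : (Σ ij : {q : ℕ × ℕ // q ∈ adg n},
          {x : Finset ℕ // w1 x = ij.1.1} × {x : Finset ℕ // w1 x = ij.1.2}) => z.2.1.1) hh
      have a2 : y = y' := congrArg (fun z : (Σ ij : {q : ℕ × ℕ // q ∈ adg n},
          {x : Finset ℕ // w1 x = ij.1.1} × {x : Finset ℕ // w1 x = ij.1.2}) => z.2.2.1) hh
      subst a1
      subst a2
      rfl
    · exact w2_fin
  rw [h1]
  calc ((1 - 2 * X ^ 2) ^ 2 * (1 - 2 * X) : PowerSeries ℚ) * ((gf w1 * gf w1) * gf w2)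
      = ((1 - 2 * X ^ 2) * gf w1) ^ 2 * ((1 - 2 * X) * gf w2) := by ring
    _ = _ := by rw [gf_w1, gf_w2]

end Pool.Agent.H65R2.Lamp
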