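import Mathlib
import Pool.Agent.Helper943.LM.Aut

/-!
From an automatic structure with uniqueness to a prefix-closed one, over a larger generating set.

Let `L` be the language of an automatic structure with uniqueness.  Every prefix `u` of a word of
`L` has a completion `u z(u)` in `L`, where `z(u)` is a short word depending only on the state
reached by `u`.  Fix `R` larger than the lengths of all `z(u)`.  A word
`w = v_1 v_2 ... v_m s` of `L` with `|v_i| = R` and `|s| < R` is replaced by the word with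
letters `ι(u_(i-1))⁻¹ ι(u_i)`, where `u_i = v_1 ... v_i`, `ι(u_i)` is the element represented by
`u_i z(u_i)` and `ι(u_0) = 1`, followed by the letter `ι(u_m)⁻¹ w` unless this is trivial.
-/

set_option autoImplicit false

open scoped Classical

namespace Pool.Agent.H65R2.Pre

open Pool.Agent.Helper943.LM

noncomputable section

variable {G : Type} [Group G]

/-- choices for the construction -/
structure Dt (U : UA G) where
  z : U.S → List U.A
  hz : ∀ s, (∃ v, U.run s v ∈ U.acc) → U.run s (z s) ∈ U.acc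
  w1 : List U.A
  hw1 : U.run U.s0 w1 ∈ U.acc
  ev1 : U.ev w1 = 1
  R : ℕ
  hR1 : w1.length < R
  hRz : ∀ s, (z s).length < R

theorem exists_Dt (U : UA G) : Nonempty (Dt U) := by
  have := U.finS
  have hz : ∀ s : U.S, ∃ z : List U.A, (∃ v, U.run s v ∈ U.acc) → U.run s z ∈ U.acc := by
    intro s
    by_cases h : ∃ v, U.run s v ∈ U.acc
    · obtain ⟨v, hv⟩ := h
      exact ⟨v, fun _ => hv⟩
    · exact ⟨[], fun h' => absurd h' h⟩
  choose z hz using hz
  obtain ⟨w1, hw1, ev1⟩ := U.surj 1
  obtain ⟨N, hN⟩ : ∃ N, ∀ s, (z s).length ≤ N := by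
    have hf : (Set.range (fun s => (z s).length)).Finite := Set.finite_range _
    obtain ⟨N, hN⟩ := hf.bddAbove
    exact ⟨N, fun s => hN ⟨s, rfl⟩⟩
  exact ⟨{ z := z, hz := hz, w1 := w1, hw1 := hw1, ev1 := ev1, R := N + w1.length + 1,
           hR1 := by omega, hRz := fun s => by have := hN s; omega }⟩

variable {U : UA G} (D : Dt U)

/-- the completion of a tree state (`none` is the root) -/
def Dt.zt : Option U.S → List U.A
  | none => D.w1
  | some s => D.z s

/-- the state of the automaton -/
def Dt.st (_ : Dt U) : Option U.S → U.S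
  | none => U.s0
  | some s => s

theorem Dt.zt_len (q : Option U.S) : (D.zt q).length < D.R := by
  cases q with
  | none => exact D.hR1
  | some s => exact D.hRz s

/-- next tree state -/
def Dt.nx (q : Option U.S) (v : List U.A) : Option U.S := some (U.run (D.st q) v)

/-- label of an edge of the tree -/
def Dt.lab (q : Option U.S) (v : List U.A) : G :=
  (U.ev (D.zt q))⁻¹ * U.ev v * U.ev (D.zt (D.nx q v))

/-- label of a leaf -/
def Dt.leaf (q : Option U.S) (s : List U.A) : G := (U.ev (D.zt q))⁻¹ * U.ev s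

/-- the new word -/
def Dt.P (q : Option U.S) (w : List U.A) : List G :=
  if w.length < D.R then (if w = D.zt q then [] else [D.leaf q w])
  else D.lab q (w.take D.R) :: Dt.P (D.nx q (w.take D.R)) (w.drop D.R)
termination_by w.length
decreasing_by
  have := D.hR1
  rw [List.length_drop]
  omega

theorem Dt.P_short (q : Option U.S) (w : List U.A) (h : w.length < D.R) :
    D.P q w = if w = D.zt q then [] else [D.leaf q w] := by
  rw [Dt.P, if_pos h]

theorem Dt.P_long (q : Option U.S) (w : List U.A) (h : ¬ w.length < D.R) :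
    D.P q w = D.lab q (w.take D.R) :: D.P (D.nx q (w.take D.R)) (w.drop D.R) := by
  rw [Dt.P, if_neg h]

theorem Dt.P_zt (q : Option U.S) : D.P q (D.zt q) = [] := by
  rw [D.P_short q _ (D.zt_len q), if_pos rfl]

theorem ev_append (U : UA G) (u v : List U.A) : U.ev (u ++ v) = U.ev u * U.ev v := by
  simp [UA.ev]

theorem run_append (U : UA G) (s : U.S) (u v : List U.A) :
    U.run s (u ++ v) = U.run (U.run s u) v := by
  simp [UA.run]

/-- induction principle -/
theorem Dt.ind {C : Option U.S → List U.A → Prop}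
    (hs : ∀ q w, w.length < D.R → C q w)
    (hl : ∀ q w, ¬ w.length < D.R → C (D.nx q (w.take D.R)) (w.drop D.R) → C q w) :
    ∀ q w, C q w := by
  have key : ∀ n : ℕ, ∀ q w, w.length = n → C q w := by
    intro n
    induction n using Nat.strong_induction_on with
    | _ n ih =>
      intro q w hw
      by_cases h : w.length < D.R
      · exact hs q w h
      · have := D.hR1
        refine hl q w h (ih (w.drop D.R).length ?_ _ _ rfl)
        rw [List.length_drop]
        omega
  exact fun q w => key _ q w rfl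

theorem Dt.prod_P : ∀ (q : Option U.S) (w : List U.A),
    (D.P q w).prod = (U.ev (D.zt q))⁻¹ * U.ev w := by
  refine D.ind (C := fun q w => (D.P q w).prod = (U.ev (D.zt q))⁻¹ * U.ev w) ?_ ?_
  · intro q w h
    rw [D.P_short q w h]
    split_ifs with h1
    · subst h1
      simp
    · simp [Dt.leaf]
  · intro q w h ih
    rw [D.P_long q w h, List.prod_cons, ih]
    have h1 : U.ev w = U.ev (w.take D.R) * U.ev (w.drop D.R) := by
      rw [← ev_append, List.take_append_drop]
    rw [h1]
    unfold Dt.lab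
    group

/-- the set of new words, as lists of group elements -/
def Dt.LG : Set (List G) := {W | ∃ w, U.run U.s0 w ∈ U.acc ∧ W = D.P none w}

theorem Dt.ev_root : U.ev (D.zt none) = 1 := D.ev1

theorem Dt.prod_LG (w : List U.A) : (D.P none w).prod = U.ev w := by
  rw [D.prod_P, D.ev_root]
  simp

theorem Dt.zt_acc (q : Option U.S) (w : List U.A) (h : U.run (D.st q) w ∈ U.acc) :
    U.run (D.st q) (D.zt q) ∈ U.acc := by
  cases q with
  | none => exact D.hw1
  | some s => exact D.hz s ⟨w, h⟩

theorem Dt.prefix_closed : ∀ (q : Option U.S) (w : List U.A), U.run (D.st q) w ∈ U.acc →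
    ∀ V V' : List G, D.P q w = V ++ V' → ∃ w', U.run (D.st q) w' ∈ U.acc ∧ D.P q w' = V := by
  refine D.ind (C := fun q w => U.run (D.st q) w ∈ U.acc →
    ∀ V V' : List G, D.P q w = V ++ V' → ∃ w', U.run (D.st q) w' ∈ U.acc ∧ D.P q w' = V) ?_ ?_
  · intro q w h hacc V V' hV
    cases V with
    | nil => exact ⟨D.zt q, D.zt_acc q w hacc, D.P_zt q⟩
    | cons g V =>
      refine ⟨w, hacc, ?_⟩
      rw [D.P_short q w h] at hV ⊢
      split_ifs at hV ⊢ with h1
      · simp at hV
      · simp only [List.cons_append, List.cons.injEq] at hV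
        obtain ⟨h2, h3⟩ := hV
        have h4 : V = [] := by
          have := congrArg List.length h3
          simp at this
          exact List.length_eq_zero_iff.1 (by omega)
        rw [h2, h4]
  · intro q w h ih hacc V V' hV
    cases V with
    | nil => exact ⟨D.zt q, D.zt_acc q w hacc, D.P_zt q⟩
    | cons g V =>
      rw [D.P_long q w h, List.cons_append, List.cons.injEq] at hV
      obtain ⟨h2, h3⟩ := hV
      have hacc' : U.run (D.st (D.nx q (w.take D.R))) (w.drop D.R) ∈ U.acc := by
        show U.run (U.run (D.st q) (w.take D.R)) (w.drop D.R) ∈ U.acc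
        rw [← run_append, List.take_append_drop]
        exact hacc
      obtain ⟨w', hw', hP⟩ := ih hacc' V V' h3
      have hlen : (w.take D.R).length = D.R := by
        rw [List.length_take]; omega
      refine ⟨w.take D.R ++ w', ?_, ?_⟩
      · rw [run_append]
        exact hw'
      · rw [D.P_long]
        · rw [List.take_append_of_le_length (by omega), List.take_of_length_le (by omega),
            List.drop_append_of_le_length (by omega), List.drop_of_length_le (by omega),
            List.nil_append, hP, h2]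
        · rw [List.length_append]; omega

theorem Dt.LG_prefix (V V' : List G) (h : V ++ V' ∈ D.LG) : V ∈ D.LG := by
  obtain ⟨w, hw, h1⟩ := h
  obtain ⟨w', hw', h2⟩ := D.prefix_closed none w hw V V' h1.symm
  exact ⟨w', hw', h2.symm⟩

theorem Dt.LG_inj (V V' : List G) (h : V ∈ D.LG) (h' : V' ∈ D.LG) (he : V.prod = V'.prod) :
    V = V' := by
  obtain ⟨w, hw, rfl⟩ := h
  obtain ⟨w', hw', rfl⟩ := h'
  rw [D.prod_LG, D.prod_LG] at he
  rw [U.inj w w' hw hw' he]

theorem Dt.LG_surj (g : G) : ∃ V ∈ D.LG, V.prod = g := by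
  obtain ⟨w, hw, hg⟩ := U.surj g
  exact ⟨D.P none w, ⟨w, hw, rfl⟩, by rw [D.prod_LG]; exact hg⟩

/-- all labels -/
def Dt.labels : Set G :=
  {g | ∃ q v, v.length = D.R ∧ g = D.lab q v} ∪ {g | ∃ q v, v.length < D.R ∧ g = D.leaf q v}

theorem Dt.labels_fin : D.labels.Finite := by
  have := U.finS
  have := U.finA
  apply Set.Finite.union
  · have h1 : (Set.univ ×ˢ {v : List U.A | v.length = D.R} : Set (Option U.S × List U.A)).Finite :=
      Set.finite_univ.prod (List.finite_length_eq _ _)
    apply (h1.image (fun x => D.lab x.1 x.2)).subset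
    rintro _ ⟨q, v, hv, rfl⟩
    exact ⟨(q, v), ⟨trivial, hv⟩, rfl⟩
  · have h1 : (Set.univ ×ˢ {v : List U.A | v.length < D.R} : Set (Option U.S × List U.A)).Finite :=
      Set.finite_univ.prod (List.finite_length_lt _ _)
    apply (h1.image (fun x => D.leaf x.1 x.2)).subset
    rintro _ ⟨q, v, hv, rfl⟩
    exact ⟨(q, v), ⟨trivial, hv⟩, rfl⟩

theorem Dt.P_labels : ∀ (q : Option U.S) (w : List U.A), ∀ g ∈ D.P q w, g ∈ D.labels := by
  refine D.ind (C := fun q w => ∀ g ∈ D.P q w, g ∈ D.labels) ?_ ?_
  · intro q w h g hg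
    rw [D.P_short q w h] at hg
    split_ifs at hg with h1
    · simp at hg
    · rw [List.mem_singleton] at hg
      exact Or.inr ⟨q, w, h, hg⟩
  · intro q w h ih g hg
    rw [D.P_long q w h, List.mem_cons] at hg
    rcases hg with hg | hg
    · exact Or.inl ⟨q, w.take D.R, by rw [List.length_take]; omega, hg⟩
    · exact ih g hg

theorem Dt.LG_ne_one (V : List G) (h : V ∈ D.LG) : ∀ g ∈ V, g ≠ 1 := by
  intro g hg h1
  subst h1
  obtain ⟨V1, V2, rfl⟩ := List.append_of_mem hg
  have h2 : V1 ++ [1] ∈ D.LG := D.LG_prefix _ V2 (by simpa using h)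
  have h3 : V1 ∈ D.LG := D.LG_prefix _ _ h2
  have h4 := D.LG_inj _ _ h3 h2 (by simp)
  have := congrArg List.length h4
  simp at this

/-- the new generating set -/
def Dt.B : Finset G :=
  ((D.labels_fin.union (D.labels_fin.image (fun g => g⁻¹))).toFinset).erase 1

theorem Dt.mem_B (g : G) : g ∈ D.B ↔ g ≠ 1 ∧ (g ∈ D.labels ∨ g⁻¹ ∈ D.labels) := by
  unfold Dt.B
  rw [Finset.mem_erase, Set.Finite.mem_toFinset, Set.mem_union, Set.mem_image]
  constructor
  · rintro ⟨h1, h2 | ⟨x, hx, rfl⟩⟩
    · exact ⟨h1, Or.inl h2⟩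
    · exact ⟨h1, Or.inr (by simpa using hx)⟩
  · rintro ⟨h1, h2 | h2⟩
    · exact ⟨h1, Or.inl h2⟩
    · exact ⟨h1, Or.inr ⟨g⁻¹, h2, by simp⟩⟩

theorem Dt.B_inv (g : G) (h : g ∈ D.B) : g⁻¹ ∈ D.B := by
  rw [D.mem_B] at h ⊢
  refine ⟨by simpa using h.1, ?_⟩
  rw [inv_inv]
  exact h.2.symm

theorem Dt.B_one : (1 : G) ∉ D.B := by
  rw [D.mem_B]
  simp

/-- the new language -/
def Dt.L : Language D.B := {W | W.map Subtype.val ∈ D.LG}

theorem Dt.lift (V : List G) (h : V ∈ D.LG) : ∃ W : List D.B, W.map Subtype.val = V := by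
  have h1 : ∀ g ∈ V, g ∈ D.B := by
    intro g hg
    rw [D.mem_B]
    refine ⟨D.LG_ne_one V h g hg, Or.inl ?_⟩
    obtain ⟨w, -, rfl⟩ := h
    exact D.P_labels _ _ g hg
  refine ⟨V.attach.map (fun x => ⟨x.1, h1 x.1 x.2⟩), ?_⟩
  rw [List.map_map]
  exact List.attach_map_subtype_val V

/-- the automaton for the new language: `none` is the state after a leaf -/
def Dt.nfa : NFA D.B (Option (Option U.S)) where
  step s b := match s with
    | none => ∅
    | some q => {t | (∃ v : List U.A, v.length = D.R ∧ D.lab q v = b ∧ t = some (D.nx q v)) ∨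
        (t = none ∧ ∃ v : List U.A, v.length < D.R ∧ v ≠ D.zt q ∧ U.run (D.st q) v ∈ U.acc ∧
          D.leaf q v = b)}
  start := {some none}
  accept := {t | t = none ∨ ∃ q, t = some q ∧ U.run (D.st q) (D.zt q) ∈ U.acc}

theorem Dt.nfa_none (W : List D.B) : W ∈ D.nfa.acceptsFrom {none} ↔ W = [] := by
  cases W with
  | nil =>
    simp only [NFA.nil_mem_acceptsFrom, iff_true]
    exact ⟨none, rfl, Or.inl rfl⟩
  | cons b W =>
    rw [NFA.cons_mem_acceptsFrom, NFA.stepSet_singleton]
    have : D.nfa.step none b = ∅ := rfl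
    rw [this, NFA.mem_acceptsFrom]
    simp only [reduceCtorEq, iff_false]
    rintro ⟨s, -, hs⟩
    rw [NFA.mem_evalFrom_iff_exists] at hs
    obtain ⟨t, ht, -⟩ := hs
    exact ht

theorem Dt.nfa_some (W : List D.B) : ∀ q : Option U.S, W ∈ D.nfa.acceptsFrom {some q} ↔
    ∃ w, U.run (D.st q) w ∈ U.acc ∧ W.map Subtype.val = D.P q w := by
  induction W with
  | nil =>
    intro q
    rw [NFA.nil_mem_acceptsFrom]
    constructor
    · rintro ⟨s, rfl, hs⟩
      rcases hs with hs | ⟨q', hq', hs⟩
      · simp at hs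
      · obtain rfl : q = q' := by simpa using hq'
        exact ⟨D.zt q, hs, by rw [D.P_zt]; rfl⟩
    · rintro ⟨w, hw, h⟩
      exact ⟨some q, rfl, Or.inr ⟨q, rfl, D.zt_acc q w hw⟩⟩
  | cons b W ih =>
    intro q
    rw [NFA.cons_mem_acceptsFrom, NFA.stepSet_singleton]
    have hmem : ∀ X : Set (Option (Option U.S)), W ∈ D.nfa.acceptsFrom X ↔
        ∃ t ∈ X, W ∈ D.nfa.acceptsFrom {t} := by
      intro X
      simp only [NFA.mem_acceptsFrom]
      constructor
      · rintro ⟨s, hs, h⟩
        rw [NFA.mem_evalFrom_iff_exists] at h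
        obtain ⟨t, ht, h⟩ := h
        exact ⟨t, ht, s, hs, h⟩
      · rintro ⟨t, ht, s, hs, h⟩
        refine ⟨s, hs, ?_⟩
        rw [NFA.mem_evalFrom_iff_exists]
        exact ⟨t, ht, h⟩
    rw [hmem]
    constructor
    · rintro ⟨t, ht, hW⟩
      rcases ht with ⟨v, hv, hb, rfl⟩ | ⟨rfl, v, hv, hne, hacc, hb⟩
      · obtain ⟨w, hw, h⟩ := (ih _).1 hW
        refine ⟨v ++ w, ?_, ?_⟩
        · rw [run_append]; exact hw
        · rw [D.P_long, List.map_cons]
          · rw [List.take_append_of_le_length (by omega), List.take_of_length_le (by omega),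
              List.drop_append_of_le_length (by omega), List.drop_of_length_le (by omega),
              List.nil_append, ← h, hb]
          · rw [List.length_append]; omega
      · rw [D.nfa_none] at hW
        subst hW
        refine ⟨v, hacc, ?_⟩
        rw [D.P_short q v hv, if_neg hne, hb]
        rfl
    · rintro ⟨w, hw, h⟩
      by_cases hlen : w.length < D.R
      · rw [D.P_short q w hlen] at h
        split_ifs at h with h1
        · simp at h
        · rw [List.map_cons, List.cons.injEq] at h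
          obtain ⟨h2, h3⟩ := h
          have h4 : W = [] := List.map_eq_nil_iff.1 h3
          refine ⟨none, Or.inr ⟨rfl, w, hlen, h1, hw, h2.symm⟩, ?_⟩
          rw [D.nfa_none]
          exact h4
      · rw [D.P_long q w hlen, List.map_cons, List.cons.injEq] at h
        obtain ⟨h2, h3⟩ := h
        refine ⟨some (D.nx q (w.take D.R)), Or.inl ⟨w.take D.R, by rw [List.length_take]; omega,
          h2.symm, rfl⟩, ?_⟩
        rw [ih]
        refine ⟨w.drop D.R, ?_, h3⟩
        show U.run (U.run (D.st q) (w.take D.R)) (w.drop D.R) ∈ U.acc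
        rw [← run_append, List.take_append_drop]
        exact hw

theorem Dt.L_nfa : D.nfa.accepts = D.L := by
  ext W
  rw [NFA.accepts_eq_acceptsFrom_start]
  show W ∈ D.nfa.acceptsFrom {some none} ↔ W.map Subtype.val ∈ D.LG
  rw [D.nfa_some]
  rfl

theorem Dt.L_regular : D.L.IsRegular := by
  have := U.finS
  letI : Fintype (Option (Option U.S)) := Fintype.ofFinite _
  rw [← D.L_nfa, ← NFA.toDFA_correct]
  exact ⟨Set (Option (Option U.S)), inferInstance, D.nfa.toDFA, rfl⟩

/-- the correction terms -/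
def Dt.E : Set G := {g | ∃ q, g = U.ev (D.zt q)} ∪ {1}

theorem Dt.E_fin : D.E.Finite := by
  have := U.finS
  apply Set.Finite.union
  · apply (Set.finite_range (fun q : Option U.S => U.ev (D.zt q))).subset
    rintro _ ⟨q, rfl⟩
    exact ⟨q, rfl⟩
  · exact Set.finite_singleton _

theorem Dt.track (t : ℕ) : ∀ (q : Option U.S) (w : List U.A),
    (U.ev (w.take (t * D.R)))⁻¹ * (U.ev (D.zt q) * ((D.P q w).take t).prod) ∈ D.E := by
  induction t with
  | zero =>
    intro q w
    left
    refine ⟨q, ?_⟩
    simp [UA.ev]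
  | succ t ih =>
    intro q w
    have hR := D.hR1
    by_cases h : w.length < D.R
    · right
      have h1 : w.take ((t + 1) * D.R) = w := by
        apply List.take_of_length_le
        nlinarith
      rw [h1, D.P_short q w h]
      split_ifs with h2
      · subst h2
        simp
      · simp [Dt.leaf]
    · have h1 : U.ev (w.take ((t + 1) * D.R)) =
          U.ev (w.take D.R) * U.ev ((w.drop D.R).take (t * D.R)) := by
        rw [← ev_append]
        congr 1
        rw [show (t + 1) * D.R = D.R + t * D.R by ring, List.take_add]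
      have h2 := ih (D.nx q (w.take D.R)) (w.drop D.R)
      rw [D.P_long q w h, List.take_succ_cons, List.prod_cons, h1]
      unfold Dt.lab
      have h3 : (U.ev (w.take D.R) * U.ev ((w.drop D.R).take (t * D.R)))⁻¹ *
          (U.ev (D.zt q) * ((U.ev (D.zt q))⁻¹ * U.ev (w.take D.R) *
            U.ev (D.zt (D.nx q (w.take D.R))) *
              ((D.P (D.nx q (w.take D.R)) (w.drop D.R)).take t).prod)) =
          (U.ev ((w.drop D.R).take (t * D.R)))⁻¹ * (U.ev (D.zt (D.nx q (w.take D.R))) *
            ((D.P (D.nx q (w.take D.R)) (w.drop D.R)).take t).prod) := by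
        group
      rw [h3]
      exact h2

theorem Dt.ft (g : G) : ∃ F : Set G, F.Finite ∧ ∀ V V' : List G, V ∈ D.LG → V' ∈ D.LG →
    V.prod * g = V'.prod → ∀ t : ℕ, ((V.take t).prod)⁻¹ * (V'.take t).prod ∈ F := by
  obtain ⟨F, hF, hF2⟩ := U.ft g
  refine ⟨Set.image2 (fun e x => e⁻¹ * x) D.E (Set.image2 (fun f e => f * e) F D.E),
    D.E_fin.image2 _ (hF.image2 _ D.E_fin), ?_⟩
  rintro _ _ ⟨w, hw, rfl⟩ ⟨w', hw', rfl⟩ hg t
  rw [D.prod_LG, D.prod_LG] at hg
  have h1 := hF2 w w' hw hw' hg (t * D.R)
  have h2 := D.track t none w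
  have h3 := D.track t none w'
  rw [D.ev_root, one_mul] at h2 h3
  refine ⟨_, h2, _, ⟨_, h1, _, h3, rfl⟩, ?_⟩
  show _ * (((U.ev (w.take (t * D.R)))⁻¹ * U.ev (w'.take (t * D.R))) * _) = _
  group

end

end Pool.Agent.H65R2.Pre
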